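import Mathlib

/-! The numerical index of complex `ℓ_p` is smaller than the numerical radius of the shift for
every `p ≠ 2`. -/

set_option autoImplicit false
open scoped ENNReal InnerProductSpace

namespace Pool.Agent.P.MP_c5b4b2_an.All

/-- A quantitative form of the inequality of Young. -/
theorem young2 {p q X Y κ : ℝ} (h : p.HolderConjugate q) (hκ : κ = p ^ p⁻¹ * q ^ q⁻¹) (hX : 0 ≤ X)
    (hY : 0 ≤ Y) (h1 : X ^ p + Y ^ q ≤ 1) (ε : ℝ) :
    κ * (ε * |(p - 1) * X ^ p - Y ^ q| + X * Y) ≤ 1 + (κ * p) ^ 2 / 2 * ε ^ 2 := by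
  have hp := h.pos
  have hq := h.symm.pos
  obtain ⟨u, hu⟩ : ∃ u, u = X ^ p := ⟨_, rfl⟩
  obtain ⟨w, hw⟩ : ∃ w, w = Y ^ q := ⟨_, rfl⟩
  have u0 : 0 ≤ u := hu ▸ Real.rpow_nonneg hX p
  have w0 : 0 ≤ w := hw ▸ Real.rpow_nonneg hY q
  obtain ⟨a, a0, ha⟩ : ∃ a, 0 ≤ a ∧ a * a = p * u :=
    ⟨_, Real.sqrt_nonneg _, Real.mul_self_sqrt (by positivity)⟩
  obtain ⟨b, b0, hb⟩ : ∃ b, 0 ≤ b ∧ b * b = q * w :=
    ⟨_, Real.sqrt_nonneg _, Real.mul_self_sqrt (by positivity)⟩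
  have e1 : a ^ p⁻¹ * a ^ p⁻¹ = p ^ p⁻¹ * X := by
    rw [← Real.mul_rpow a0 a0, ha, Real.mul_rpow hp.le u0, hu, Real.rpow_rpow_inv hX hp.ne']
  have e2 : b ^ q⁻¹ * b ^ q⁻¹ = q ^ q⁻¹ * Y := by
    rw [← Real.mul_rpow b0 b0, hb, Real.mul_rpow hq.le w0, hw, Real.rpow_rpow_inv hY hq.ne']
  have e3 := mul_self_le_mul_self (by positivity) (Real.geom_mean_le_arith_mean2_weighted
    h.inv_nonneg h.symm.inv_nonneg a0 b0 h.inv_add_inv_eq_one)
  have e4 : κ * (X * Y) = a ^ p⁻¹ * b ^ q⁻¹ * (a ^ p⁻¹ * b ^ q⁻¹) := by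
    rw [mul_mul_mul_comm, e1, e2, hκ]; ring
  have e5 : (p⁻¹ * a + q⁻¹ * b) * (p⁻¹ * a + q⁻¹ * b) = u + w - p⁻¹ * q⁻¹ * (a - b) ^ 2 := by
    have i1 : p⁻¹ * (a * a) = u := by rw [ha, inv_mul_cancel_left₀ hp.ne']
    have i2 : q⁻¹ * (b * b) = w := by rw [hb, inv_mul_cancel_left₀ hq.ne']
    linear_combination i1 + i2 + (p⁻¹ * a * a + q⁻¹ * b * b) * h.inv_add_inv_eq_one
  rw [← hu, ← hw] at h1 ⊢
  obtain ⟨D, hD⟩ : ∃ D, D = (p - 1) * u - w := ⟨_, rfl⟩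
  have e6 : (a - b) ^ 2 * (a + b) ^ 2 = q ^ 2 * D ^ 2 := by
    have : (a - b) * (a + b) = q * D := by
      rw [hD]; linear_combination ha - hb - u * h.sub_one_mul_conj
    rw [← mul_pow, this, mul_pow]
  have e7 : (a + b) ^ 2 ≤ 2 * (p * q) := by
    have i1 : p * u ≤ p := mul_le_of_le_one_right hp.le (by linarith)
    have i2 : q * w ≤ q := mul_le_of_le_one_right hq.le (by linarith)
    nlinarith [sq_nonneg (a - b), h.mul_eq_add]
  have e8 : (D / p) ^ 2 / 2 ≤ p⁻¹ * q⁻¹ * (a - b) ^ 2 := by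
    have := e6.ge.trans (mul_le_mul_of_nonneg_left e7 (sq_nonneg (a - b)))
    rw [show (D / p) ^ 2 / 2 = q ^ 2 * D ^ 2 / (2 * p ^ 2 * q ^ 2) by field_simp,
      div_le_iff₀ (by positivity)]
    refine this.trans_eq ?_
    field_simp
  have e9 : κ * (ε * |D|) ≤ (D / p) ^ 2 / 2 + (κ * p) ^ 2 / 2 * ε ^ 2 := by
    have i1 : κ * (ε * |D|) = |D| / p * (κ * p * ε) := by field_simp
    have i2 : (D / p) ^ 2 = (|D| / p) ^ 2 := by rw [div_pow, div_pow, sq_abs]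
    rw [i1, i2]
    nlinarith [sq_nonneg (|D| / p - κ * p * ε)]
  rw [← hD, mul_add]
  linarith

/-- The case of equality in the inequality of Hoelder with two terms. -/
theorem holder_eq {p q : ℝ} (h : p.HolderConjugate q) {a b x : ℂ} {ρ : ℝ} (hρ : 0 ≤ ρ)
    (H : ∀ c l : ℂ, ‖c * a + l * b‖ ^ p ≤ ‖c‖ ^ p + ‖l‖ ^ p) (h1 : ‖x‖ ^ p + ρ ^ p = 1)
    (h2 : x * a + ρ * b = 1) : x * a = (‖x‖ ^ p : ℝ) ∧ ‖a‖ ^ q = ‖x‖ ^ p := by
  have t : ∀ z : ℂ, ∃ c : ℂ, c * z = (‖z‖ ^ q : ℝ) ∧ ‖c‖ ^ p = ‖z‖ ^ q := fun z => by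
    obtain ⟨σ, s1, s2⟩ := Complex.exists_norm_eq_mul_self z
    refine ⟨(‖z‖ ^ (q - 1) : ℝ) * σ, ?_, ?_⟩
    · rw [mul_assoc, ← s2, ← Complex.ofReal_mul, ← Real.rpow_add_one' (norm_nonneg z)
        (by rw [sub_add_cancel]; exact h.symm.ne_zero), sub_add_cancel]
    · rw [norm_mul, s1, mul_one, Complex.norm_real, Real.norm_of_nonneg (by positivity),
        ← Real.rpow_mul (norm_nonneg z), h.symm.sub_one_mul_conj]
  obtain ⟨c, c1, c2⟩ := t a
  obtain ⟨l, l1, l2⟩ := t b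
  have h3 := H c l
  rw [c1, l1, c2, l2, ← Complex.ofReal_add, Complex.norm_real,
    Real.norm_of_nonneg (by positivity)] at h3
  have h4 : ‖a‖ ^ q + ‖b‖ ^ q ≤ 1 := by
    by_contra hc
    exact absurd h3 (not_le.2 (Real.self_lt_rpow_of_one_lt (not_le.1 hc) h.lt))
  have y1 := Real.young_inequality_of_nonneg (norm_nonneg x) (norm_nonneg a) h
  have y2 := Real.young_inequality_of_nonneg hρ (norm_nonneg b) h
  have r1 := Complex.re_le_norm (x * a)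
  have r2 := Complex.re_le_norm (ρ * b)
  have r3 := congrArg Complex.re h2
  rw [norm_mul, Complex.norm_real, Real.norm_of_nonneg hρ] at r2
  rw [Complex.add_re, Complex.one_re] at r3
  have r4 : ‖x‖ ^ p / p + ρ ^ p / p = p⁻¹ := by rw [← add_div, h1, one_div]
  have r5 : ‖a‖ ^ q / q + ‖b‖ ^ q / q ≤ q⁻¹ := by
    rw [← add_div, ← one_div]
    exact div_le_div_of_nonneg_right h4 h.symm.nonneg
  have r6 := h.inv_add_inv_eq_one
  have r7 := norm_mul x a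
  have e1 : ‖x‖ * ‖a‖ = ‖x‖ ^ p / p + ‖a‖ ^ q / q := by linarith
  have e2 := (Real.young_inequality_eq_iff_of_nonneg (norm_nonneg x) (norm_nonneg a) h).1 e1
  refine ⟨?_, e2.symm⟩
  rw [Complex.eq_coe_norm_of_nonneg (Complex.re_eq_norm.1 (by linarith : (x * a).re = ‖x * a‖)),
    r7, e1, ← e2, div_eq_mul_inv, div_eq_mul_inv, ← mul_add, r6, mul_one]

theorem small {γ c : ℝ} (hγ : 0 < γ) (hc : 0 < c) : ∃ t : ℝ, 0 < t ∧ t ≤ 1 ∧ t ^ γ ≤ c := by
  have h0 : 0 < min c 1 := lt_min hc one_pos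
  exact ⟨min c 1 ^ γ⁻¹, Real.rpow_pos_of_pos h0 _,
    Real.rpow_le_one h0.le (min_le_right _ _) (inv_nonneg.2 hγ.le),
    (Real.rpow_inv_rpow h0.le hγ.ne').trans_le (min_le_left _ _)⟩

/-- The numerical radius. -/
noncomputable def nr {X : Type} [NormedAddCommGroup X] [NormedSpace ℂ X] (T : X →L[ℂ] X) : ℝ :=
  sSup {s : ℝ | ∃ (x : X) (f : X →L[ℂ] ℂ), ‖x‖ = 1 ∧ ‖f‖ = 1 ∧ f x = 1 ∧ s = ‖f (T x)‖}

/-- The numerical index. -/
noncomputable def ni (X : Type) [NormedAddCommGroup X] [NormedSpace ℂ X] : ℝ :=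
  sInf {c : ℝ | ∃ T : X →L[ℂ] X, ‖T‖ = 1 ∧ c = nr T}

theorem ni_le {X : Type} [NormedAddCommGroup X] [NormedSpace ℂ X] (T : X →L[ℂ] X) {c : ℝ}
    (hc : 0 ≤ c) (hT : 0 < ‖T‖)
    (h : ∀ (x : X) (f : X →L[ℂ] ℂ), ‖x‖ = 1 → ‖f‖ = 1 → f x = 1 → ‖f (T x)‖ ≤ c) :
    ni X ≤ c / ‖T‖ := by
  refine le_trans (b := nr (((‖T‖⁻¹ : ℝ) : ℂ) • T)) (csInf_le ⟨0, ?_⟩ ⟨_, ?_, rfl⟩)
    (Real.sSup_le ?_ (by positivity))
  · rintro _ ⟨S, -, rfl⟩
    refine Real.sSup_nonneg ?_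
    rintro _ ⟨x, f, -, -, -, rfl⟩
    exact norm_nonneg _
  · rw [norm_smul, Complex.norm_real, norm_inv, norm_norm, inv_mul_cancel₀ hT.ne']
  · rintro _ ⟨x, f, hx, hf, hfx, rfl⟩
    rw [_root_.smul_apply, map_smul, norm_smul, Complex.norm_real, norm_inv, norm_norm,
      inv_mul_eq_div]
    exact div_le_div_of_nonneg_right (h x f hx hf hfx) hT.le

/-- The numerical index of a complex inner product space is at least one half. -/
theorem half_le {X : Type} [NormedAddCommGroup X] [InnerProductSpace ℂ X] [Nontrivial X] :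
    1 / 2 ≤ ni X := by
  refine le_csInf ⟨_, ContinuousLinearMap.id ℂ X, ContinuousLinearMap.norm_id, rfl⟩ ?_
  rintro _ ⟨T, hT, rfl⟩
  have h1 : ∀ x : X, ‖x‖ = 1 → ‖⟪x, T x⟫_ℂ‖ ≤ nr T := fun x hx => by
    refine le_csSup ⟨1, ?_⟩ ⟨x, innerSL ℂ x, hx, by rw [innerSL_apply_norm, hx], by
      rw [innerSL_apply_apply, inner_self_eq_norm_sq_to_K, hx]; simp, rfl⟩
    rintro _ ⟨y, f, hy, hf, -, rfl⟩
    simpa [hf, hT, hy] using (f.le_opNorm _).trans
      (mul_le_mul_of_nonneg_left (T.le_opNorm y) (norm_nonneg f))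
  have h2 : ∀ x : X, ‖⟪T x, x⟫_ℂ‖ ≤ nr T * ‖x‖ ^ 2 := fun x => by
    rcases eq_or_ne x 0 with rfl | hx
    · simp
    have h0 := norm_pos_iff.2 hx
    have := h1 (((‖x‖⁻¹ : ℝ) : ℂ) • x) (by
      rw [norm_smul, Complex.norm_real, norm_inv, norm_norm, inv_mul_cancel₀ h0.ne'])
    rw [map_smul, inner_smul_left, inner_smul_right, norm_mul, norm_mul, RCLike.norm_conj,
      Complex.norm_real, norm_inv, norm_norm, inv_mul_le_iff₀ h0, inv_mul_le_iff₀ h0] at this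
    rw [norm_inner_symm]
    linarith
  obtain ⟨x0, hx0⟩ := exists_norm_eq X zero_le_one
  have h3 : 0 ≤ nr T := (norm_nonneg _).trans (h1 x0 hx0)
  have h4 : ∀ x y : X, ‖y‖ = ‖x‖ → ‖⟪T y, x⟫_ℂ‖ ≤ 2 * nr T * ‖x‖ ^ 2 := fun x y e => by
    have a1 := inner_map_polarization (T : X →ₗ[ℂ] X) x y
    simp only [ContinuousLinearMap.coe_coe] at a1
    have a2 := parallelogram_law_with_norm ℂ x y
    have a3 := parallelogram_law_with_norm ℂ x (Complex.I • y)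
    rw [norm_smul, Complex.norm_I, one_mul, e] at a3
    rw [e] at a2
    rw [a1, norm_div, div_le_iff₀ (by simp)]
    refine (norm_sub_le_of_le (norm_add_le_of_le (norm_sub_le_of_le (h2 _) (h2 _))
      ((norm_mul_le_of_le Complex.norm_I.le (h2 _)))) (norm_mul_le_of_le Complex.norm_I.le
        (h2 _))).trans_eq ?_
    rw [Complex.norm_ofNat]
    linear_combination nr T * a2 + nr T * a3
  have h5 : ‖T‖ ≤ 2 * nr T := by
    refine ContinuousLinearMap.opNorm_le_of_unit_norm (by positivity) fun y hy => ?_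
    rcases eq_or_ne (T y) 0 with e | e
    · rw [e, norm_zero]; positivity
    have h0 := norm_pos_iff.2 e
    have := h4 (((‖T y‖⁻¹ : ℝ) : ℂ) • T y) y (by
      rw [norm_smul, Complex.norm_real, norm_inv, norm_norm, inv_mul_cancel₀ h0.ne', hy])
    rwa [inner_smul_right, norm_mul, norm_smul, Complex.norm_real, norm_inv, norm_norm,
      inv_mul_cancel₀ h0.ne', one_pow, mul_one, inner_self_eq_norm_sq_to_K, norm_pow,
      RCLike.norm_ofReal, abs_norm, sq, inv_mul_cancel_left₀ h0.ne'] at this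
  linarith

section lp

variable {ι : Type} [DecidableEq ι] {P : ℝ≥0∞} [Fact (1 ≤ P)]

theorem coord {q : ℝ} (h : P.toReal.HolderConjugate q) {x : lp (fun _ : ι => ℂ) P}
    {f : lp (fun _ : ι => ℂ) P →L[ℂ] ℂ} (hx : ‖x‖ = 1) (hf : ‖f‖ = 1) (hfx : f x = 1) (i : ι) :
    x i * f (lp.single P i 1) = (‖x i‖ ^ P.toReal : ℝ) ∧
      ‖f (lp.single P i 1)‖ ^ q = ‖x i‖ ^ P.toReal := by
  have dec : ∀ y : lp (fun _ : ι => ℂ) P,
      ‖y i‖ ^ P.toReal + ‖y - lp.single P i (y i)‖ ^ P.toReal = ‖y‖ ^ P.toReal := fun y => by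
    have := lp.norm_sub_norm_compl_sub_single h.pos y {i}
    rw [Finset.sum_singleton, Finset.sum_singleton] at this
    linarith
  have sm : ∀ c : ℂ, lp.single P i c = c • (lp.single P i 1 : lp (fun _ : ι => ℂ) P) := fun c => by
    rw [← lp.single_smul, smul_eq_mul, mul_one]
  obtain ⟨r, hr⟩ : ∃ r, r = x - lp.single P i (x i) := ⟨_, rfl⟩
  have ri : r i = 0 := by simp [hr]
  refine holder_eq h (b := f r / (‖r‖ : ℝ)) (norm_nonneg r) (fun c l => ?_)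
    (by rw [hr, dec, hx, Real.one_rpow]) ?_
  · have e1 : (lp.single P i c + (l / (‖r‖ : ℝ)) • r : lp (fun _ : ι => ℂ) P) i = c := by
      simp [ri]
    have e2 := dec (lp.single P i c + (l / (‖r‖ : ℝ)) • r)
    have e3 := f.le_opNorm (lp.single P i c + (l / (‖r‖ : ℝ)) • r)
    rw [e1, add_sub_cancel_left] at e2
    rw [hf, one_mul, map_add, sm c, map_smul, map_smul, smul_eq_mul, smul_eq_mul, div_mul_comm,
      mul_comm _ l, ← sm c] at e3
    refine (Real.rpow_le_rpow (norm_nonneg _) e3 h.nonneg).trans (e2.ge.trans ?_)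
    refine add_le_add_right (Real.rpow_le_rpow (norm_nonneg _) ?_ h.nonneg) _
    rw [norm_smul, norm_div, Complex.norm_real, norm_norm, div_mul_comm]
    exact mul_le_of_le_one_left (norm_nonneg _) (div_self_le_one _)
  · have e1 : ((‖r‖ : ℝ) : ℂ) * (f r / (‖r‖ : ℝ)) = f r := by
      rcases eq_or_ne r 0 with rfl | h0
      · simp
      · exact mul_div_cancel₀ _ (by simpa using h0)
    rw [e1, hr, map_sub, hfx, sm (x i), map_smul, smul_eq_mul, add_sub_cancel]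

/-- The perturbed shift. -/
noncomputable def T (P : ℝ≥0∞) [Fact (1 ≤ P)] (i j : ι) (ε : ℝ) :
    lp (fun _ : ι => ℂ) P →L[ℂ] lp (fun _ : ι => ℂ) P :=
  (((ε * (P.toReal - 1) : ℝ) : ℂ) • lp.evalCLM ℂ (fun _ : ι => ℂ) P i).smulRight (lp.single P i 1) +
    (lp.evalCLM ℂ (fun _ : ι => ℂ) P i - (ε : ℂ) • lp.evalCLM ℂ (fun _ : ι => ℂ) P j).smulRight
      (lp.single P j 1)

theorem T_apply (i j : ι) (ε : ℝ) (x : lp (fun _ : ι => ℂ) P) :
    T P i j ε x = (((ε * (P.toReal - 1) : ℝ) : ℂ) * x i) • lp.single P i 1 +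
      (x i - ε * x j) • lp.single P j 1 := rfl

theorem radius {q κ : ℝ} (h : P.toReal.HolderConjugate q)
    (hκ : κ = P.toReal ^ P.toReal⁻¹ * q ^ q⁻¹) {i j : ι} (hij : i ≠ j) {ε : ℝ} (hε : 0 ≤ ε)
    (x : lp (fun _ : ι => ℂ) P) (f : lp (fun _ : ι => ℂ) P →L[ℂ] ℂ) (hx : ‖x‖ = 1) (hf : ‖f‖ = 1)
    (hfx : f x = 1) : ‖f (T P i j ε x)‖ ≤ (1 + (κ * P.toReal) ^ 2 / 2 * ε ^ 2) / κ := by
  obtain ⟨i1, -⟩ := coord h hx hf hfx i
  obtain ⟨j1, j2⟩ := coord h hx hf hfx j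
  have h1 := lp.sum_rpow_le_norm_rpow h.pos x {i, j}
  rw [Finset.sum_pair hij, hx, Real.one_rpow, ← j2] at h1
  have k0 : 0 < κ := hκ ▸ mul_pos (Real.rpow_pos_of_pos h.pos _) (Real.rpow_pos_of_pos h.symm.pos _)
  rw [le_div_iff₀' k0]
  refine (mul_le_mul_of_nonneg_left ?_ k0.le).trans
    (young2 h hκ (norm_nonneg _) (norm_nonneg _) h1 ε)
  have e : f (T P i j ε x) = ε * (((P.toReal - 1) * ‖x i‖ ^ P.toReal - ‖x j‖ ^ P.toReal : ℝ) : ℂ) +
      x i * f (lp.single P j 1) := by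
    rw [T_apply, map_add, map_smul, map_smul, smul_eq_mul, smul_eq_mul, Complex.ofReal_sub,
      Complex.ofReal_mul, Complex.ofReal_mul, ← i1, ← j1]
    ring
  rw [e, j2]
  refine (norm_add_le _ _).trans_eq ?_
  rw [norm_mul, norm_mul, Complex.norm_real, Complex.norm_real, Real.norm_of_nonneg hε,
    Real.norm_eq_abs]

theorem norm_low1 (h : 1 < P.toReal) {i j : ι} (hij : i ≠ j) {ε : ℝ} (hε : 0 ≤ ε) :
    (ε * (P.toReal - 1)) ^ P.toReal + 1 ≤ ‖T P i j ε‖ ^ P.toReal := by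
  have hp : 0 < P.toReal := one_pos.trans h
  have h1 := lp.sum_rpow_le_norm_rpow hp (T P i j ε (lp.single P i 1)) {i, j}
  have h2 := (T P i j ε).le_opNorm (lp.single P i 1)
  have e1 : T P i j ε (lp.single P i 1) i = (ε * (P.toReal - 1) : ℝ) := by
    simp [T_apply, hij]
  have e2 : T P i j ε (lp.single P i 1) j = 1 := by
    simp [T_apply, hij.symm]
  rw [lp.norm_single (one_pos.trans_le Fact.out), norm_one, mul_one] at h2
  rw [Finset.sum_pair hij, e1, e2, norm_one, Real.one_rpow, Complex.norm_real,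
    Real.norm_of_nonneg (mul_nonneg hε (sub_pos.2 h).le)] at h1
  exact h1.trans (Real.rpow_le_rpow (norm_nonneg _) h2 hp.le)

theorem norm_low2 (h : 1 < P.toReal) {i j : ι} (hij : i ≠ j) {ε t : ℝ} (hε : 0 ≤ ε) (ht : 0 ≤ t) :
    1 + ε * t ≤ ‖T P i j ε‖ * (1 + P.toReal⁻¹ * t ^ P.toReal) := by
  have hp : 0 < P.toReal := one_pos.trans h
  obtain ⟨x, hx⟩ : ∃ x : lp (fun _ : ι => ℂ) P, x = ∑ k ∈ ({i, j} : Finset ι),
    lp.single P k (if k = i then (1 : ℂ) else ((-t : ℝ) : ℂ)) := ⟨_, rfl⟩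
  have h1 : ‖x‖ ^ P.toReal = 1 + t ^ P.toReal := by
    rw [hx, lp.norm_sum_single hp, Finset.sum_pair hij, if_pos rfl, if_neg hij.symm, norm_one,
      Real.one_rpow, Complex.norm_real, norm_neg, Real.norm_of_nonneg ht]
  have h2 : ‖x‖ ≤ 1 + P.toReal⁻¹ * t ^ P.toReal := by
    rw [← Real.rpow_rpow_inv (norm_nonneg x) hp.ne', h1]
    exact rpow_one_add_le_one_add_mul_self (by linarith [Real.rpow_nonneg ht P.toReal])
      (inv_nonneg.2 hp.le) (inv_le_one_of_one_le₀ h.le)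
  have e : T P i j ε x j = (1 + ε * t : ℝ) := by
    simp [T_apply, hx, Finset.sum_pair hij, hij, hij.symm]
  have h3 := lp.norm_apply_le_norm (one_pos.trans_le Fact.out).ne' (T P i j ε x) j
  rw [e, Complex.norm_real, Real.norm_of_nonneg (by positivity)] at h3
  exact h3.trans (((T P i j ε).le_opNorm x).trans (mul_le_mul_of_nonneg_left h2 (norm_nonneg _)))

theorem gain (h : 1 < P.toReal) (h2 : P.toReal ≠ 2) {i j : ι} (hij : i ≠ j) {K : ℝ} (hK : 0 < K) :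
    ∃ ε : ℝ, 0 ≤ ε ∧ 1 + K * ε ^ 2 < ‖T P i j ε‖ := by
  obtain ⟨p, hp⟩ : ∃ p, p = P.toReal := ⟨_, rfl⟩
  have n1 := fun ε hε => hp ▸ norm_low1 h hij (ε := ε) hε
  have n2 := fun ε t hε ht => hp ▸ norm_low2 h hij (ε := ε) (t := t) hε ht
  rw [← hp] at h h2
  rcases h2.lt_or_gt with h3 | h3
  · have c0 : 0 < (p - 1) ^ p := Real.rpow_pos_of_pos (sub_pos.2 h) p
    obtain ⟨t, t0, t1, ht⟩ := small (sub_pos.2 h3)
      (show 0 < (p - 1) ^ p / (2 * (2 * K + K ^ 2)) by positivity)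
    refine ⟨t, t0.le, not_le.1 fun hc => ?_⟩
    have a1 := (n1 t t0.le).trans ((Real.rpow_le_rpow (norm_nonneg _) hc (by linarith)).trans
      (Real.rpow_le_rpow_of_exponent_le (le_add_of_nonneg_right (by positivity)) h3.le))
    have a2 : t ^ 2 = t ^ p * t ^ (2 - p) := by
      rw [← Real.rpow_add t0, add_sub_cancel, Real.rpow_two]
    have a3 : 0 < t ^ p := Real.rpow_pos_of_pos t0 p
    have a4 : t ^ 2 ≤ 1 := pow_le_one₀ t0.le t1
    rw [Real.mul_rpow t0.le (sub_pos.2 h).le, Real.rpow_two] at a1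
    rw [le_div_iff₀ (by positivity)] at ht
    have a5 := mul_le_mul_of_nonneg_left ht a3.le
    have a6 : K ^ 2 * t ^ 2 * t ^ 2 ≤ K ^ 2 * t ^ 2 := mul_le_of_le_one_right (by positivity) a4
    have a7 : t ^ p * (t ^ (2 - p) * (2 * (2 * K + K ^ 2))) = 2 * (2 * K + K ^ 2) * t ^ 2 := by
      rw [a2]; ring
    nlinarith [mul_pos a3 c0]
  · obtain ⟨t, t0, t1, ht⟩ := small (sub_pos.2 h3) (show 0 < 1 / (8 * K) by positivity)
    refine ⟨t ^ (p - 1), by positivity, not_le.1 fun hc => ?_⟩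
    have a3 : 0 < t ^ p := Real.rpow_pos_of_pos t0 p
    have a1 := (n2 (t ^ (p - 1)) t (by positivity) t0.le).trans
      (mul_le_mul_of_nonneg_right hc (by have := one_pos.trans h; positivity))
    have a2 : (t ^ (p - 1)) ^ 2 = t ^ p * t ^ (p - 2) := by
      rw [sq, ← Real.rpow_add t0, ← Real.rpow_add t0]
      congr 1
      ring
    have a4 : t ^ p ≤ 1 := Real.rpow_le_one t0.le t1 (by linarith)
    have a5 : p⁻¹ ≤ 2⁻¹ := inv_anti₀ two_pos h3.le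
    rw [← Real.rpow_add_one t0.ne', sub_add_cancel, a2] at a1
    rw [le_div_iff₀ (by positivity)] at ht
    have a6 := mul_le_mul_of_nonneg_right a5 a3.le
    have a7 : K * (t ^ p * t ^ (p - 2)) ≤ t ^ p / 8 := by
      linarith [mul_le_mul_of_nonneg_left ht a3.le]
    have a8 := mul_le_mul (add_le_add_right a7 1) (add_le_add_right a6 1)
      (by have := one_pos.trans h; positivity) (by positivity)
    nlinarith [mul_le_mul_of_nonneg_left a4 a3.le]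

end lp

theorem main (ι : Type) [Nontrivial ι] (P : ℝ≥0∞) [Fact (1 ≤ P)] (h1 : 1 < P) (h2 : P ≠ ⊤) :
    ni (lp (fun _ : ι => ℂ) P) = 1 / (P.toReal ^ (1 / P.toReal) *
      (P.toReal / (P.toReal - 1)) ^ ((P.toReal - 1) / P.toReal)) ↔ P = 2 := by
  classical
  obtain ⟨i, j, hij⟩ := exists_pair_ne ι
  have h : 1 < P.toReal := by simpa using ENNReal.toReal_strict_mono h2 h1
  have hc : P.toReal.HolderConjugate (P.toReal / (P.toReal - 1)) :=
    (Real.holderConjugate_iff_eq_conjExponent h).2 rfl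
  obtain ⟨κ, hκ⟩ : ∃ κ, κ = P.toReal ^ P.toReal⁻¹ *
    (P.toReal / (P.toReal - 1)) ^ (P.toReal / (P.toReal - 1))⁻¹ := ⟨_, rfl⟩
  have k0 : 0 < κ :=
    hκ ▸ mul_pos (Real.rpow_pos_of_pos hc.pos _) (Real.rpow_pos_of_pos hc.symm.pos _)
  have p0 := hc.pos
  rw [one_div P.toReal, ← inv_div P.toReal, ← hκ]
  refine ⟨fun e => by_contra fun hne => ?_, fun e => le_antisymm ?_ ?_⟩
  · obtain ⟨ε, e0, he⟩ := gain h (fun a => hne ((ENNReal.toReal_eq_toReal_iff' h2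
      ENNReal.ofNat_ne_top).1 (by simpa using a))) hij
      (show 0 < (κ * P.toReal) ^ 2 / 2 by positivity)
    have t0 : 0 < ‖T P i j ε‖ := lt_trans (by positivity) he
    refine (ni_le (T P i j ε) (by positivity) t0 (radius hc hκ hij e0)).not_gt ?_
    rw [e, div_right_comm]
    exact div_lt_div_of_pos_right ((div_lt_one t0).2 he) k0
  · have t1 : 1 ≤ ‖T P i j 0‖ := by
      simpa [p0.ne'] using norm_low2 h hij (ε := 0) (t := 0) le_rfl le_rfl
    refine (ni_le (T P i j 0) (by positivity) (one_pos.trans_le t1)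
      (radius hc hκ hij le_rfl)).trans ((div_le_self (by positivity) t1).trans_eq (by simp))
  · subst e
    have : Nontrivial (lp (fun _ : ι => ℂ) 2) := ⟨lp.single 2 i 1, 0, fun a => by
      simpa using congrArg (fun x : lp (fun _ : ι => ℂ) 2 => x i) a⟩
    refine le_of_eq_of_le ?_ half_le
    rw [hκ, ENNReal.toReal_ofNat, show (2 : ℝ) / (2 - 1) = 2 by norm_num, ← Real.rpow_add two_pos]
    norm_num

end Pool.Agent.P.MP_c5b4b2_an.All
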