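import Mathlib

set_option autoImplicit false
open scoped ENNReal

namespace Pool.Agent.P.MP_c5b4b2_an

instance fact4 : Fact ((1 : ℝ≥0∞) ≤ 4) := ⟨by norm_num⟩

abbrev E := PiLp 4 (fun _ : Fin 2 => ℂ)

lemma norm_pow_four (x : E) : ‖x‖ ^ 4 = ‖x 0‖ ^ 4 + ‖x 1‖ ^ 4 := by
  rw [PiLp.norm_eq_of_nat 4 (by norm_num) x, Fin.sum_univ_two]
  have h : 0 ≤ ‖x 0‖ ^ 4 + ‖x 1‖ ^ 4 := by positivity
  have := Real.rpow_inv_natCast_pow h (n := 4) (by norm_num)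
  simpa [one_div] using this

/-- a real polynomial that is nonnegative and vanishes at zero has zero linear coefficient -/
lemma lin_coeff_zero (a b c d : ℝ) (h : ∀ t : ℝ, 0 ≤ a * t + b * t ^ 2 + c * t ^ 3 + d * t ^ 4) :
    a = 0 := by
  have hd : HasDerivAt (fun t : ℝ => a * t + b * t ^ 2 + c * t ^ 3 + d * t ^ 4) a 0 := by
    have h1 : HasDerivAt (fun t : ℝ => a * t) (a * 1) 0 := (hasDerivAt_id (0 : ℝ)).const_mul a
    have h2 := (hasDerivAt_pow 2 (0 : ℝ)).const_mul b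
    have h3 := (hasDerivAt_pow 3 (0 : ℝ)).const_mul c
    have h4 := (hasDerivAt_pow 4 (0 : ℝ)).const_mul d
    have := ((h1.fun_add h2).fun_add h3).fun_add h4
    exact this.congr_deriv (by simp)
  have hm : IsLocalMin (fun t : ℝ => a * t + b * t ^ 2 + c * t ^ 3 + d * t ^ 4) 0 := by
    apply Filter.Eventually.of_forall
    intro t
    simpa using h t
  exact hm.hasDerivAt_eq_zero hd

lemma norm_pow_four_add (u v : ℂ) (t : ℝ) :
    ‖u + (t : ℂ) * v‖ ^ 4 =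
      (Complex.normSq u + 2 * t * (v * (starRingEnd ℂ) u).re + t ^ 2 * Complex.normSq v) ^ 2 := by
  have : ‖u + (t : ℂ) * v‖ ^ 4 = (‖u + (t : ℂ) * v‖ ^ 2) ^ 2 := by ring
  rw [this, ← Complex.normSq_eq_norm_sq]
  congr 1
  simp [Complex.normSq_apply]
  ring

lemma re_formula (x : E) (f : E →L[ℂ] ℂ) (hx : ‖x‖ = 1) (hf : ‖f‖ = 1) (hfx : f x = 1) (y : E) :
    (f y).re = Complex.normSq (x 0) * (y 0 * (starRingEnd ℂ) (x 0)).re +
      Complex.normSq (x 1) * (y 1 * (starRingEnd ℂ) (x 1)).re := by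
  have hx4 := norm_pow_four x
  rw [hx] at hx4
  have e0 : ‖x 0‖ ^ 4 = Complex.normSq (x 0) ^ 2 := by
    rw [Complex.normSq_eq_norm_sq]; ring
  have e1 : ‖x 1‖ ^ 4 = Complex.normSq (x 1) ^ 2 := by
    rw [Complex.normSq_eq_norm_sq]; ring
  rw [e0, e1] at hx4
  set A := Complex.normSq (x 0)
  set B := Complex.normSq (x 1)
  set P := (y 0 * (starRingEnd ℂ) (x 0)).re
  set Q := (y 1 * (starRingEnd ℂ) (x 1)).re
  set C := Complex.normSq (y 0)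
  set D := Complex.normSq (y 1)
  set R := (f y).re with hR
  have key : ∀ t : ℝ, (1 + t * R) ^ 4 ≤ (A + 2 * t * P + t ^ 2 * C) ^ 2 +
      (B + 2 * t * Q + t ^ 2 * D) ^ 2 := by
    intro t
    have h1 : ‖f (x + (t : ℂ) • y)‖ ≤ ‖x + (t : ℂ) • y‖ := by
      simpa [hf] using f.le_opNorm (x + (t : ℂ) • y)
    have h2 : (f (x + (t : ℂ) • y)).re = 1 + t * R := by
      simp [map_add, hfx, hR]
    have h3 : |1 + t * R| ≤ ‖x + (t : ℂ) • y‖ := by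
      rw [← h2]; exact (Complex.abs_re_le_norm _).trans h1
    have h4 : |1 + t * R| ^ 4 ≤ ‖x + (t : ℂ) • y‖ ^ 4 :=
      pow_le_pow_left₀ (abs_nonneg _) h3 4
    rw [norm_pow_four] at h4
    have h5 : |1 + t * R| ^ 4 = (1 + t * R) ^ 4 := by
      rw [← abs_pow]; exact abs_of_nonneg (by positivity)
    rw [h5] at h4
    have h6 : (x + (t : ℂ) • y) 0 = x 0 + (t : ℂ) * y 0 := by simp
    have h7 : (x + (t : ℂ) • y) 1 = x 1 + (t : ℂ) * y 1 := by simp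
    rw [h6, h7, norm_pow_four_add, norm_pow_four_add] at h4
    exact h4
  have := lin_coeff_zero (4 * (A * P + B * Q - R))
    (4 * P ^ 2 + 2 * A * C + 4 * Q ^ 2 + 2 * B * D - 6 * R ^ 2)
    (4 * P * C + 4 * Q * D - 4 * R ^ 3) (C ^ 2 + D ^ 2 - R ^ 4) (by
      intro t
      have := key t
      nlinarith [this, hx4])
  linarith

lemma formula (x : E) (f : E →L[ℂ] ℂ) (hx : ‖x‖ = 1) (hf : ‖f‖ = 1) (hfx : f x = 1) (y : E) :
    f y = (Complex.normSq (x 0) : ℂ) * (y 0 * (starRingEnd ℂ) (x 0)) +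
      (Complex.normSq (x 1) : ℂ) * (y 1 * (starRingEnd ℂ) (x 1)) := by
  apply Complex.ext
  · rw [re_formula x f hx hf hfx y]; simp
  · have h := re_formula x f hx hf hfx ((-Complex.I) • y)
    rw [map_smul] at h
    simp at h
    simp
    linarith

/-- the operator with matrix rows (3, 0) and (37, -1) -/
noncomputable def T0 : E →L[ℂ] E :=
  LinearMap.toContinuousLinearMap
    { toFun := fun x => WithLp.toLp 4 ![3 * x 0, 37 * x 0 - x 1]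
      map_add' := by
        intro x y
        ext i
        fin_cases i <;> simp <;> ring
      map_smul' := by
        intro c x
        ext i
        fin_cases i <;> simp <;> ring }

lemma T0_zero (x : E) : T0 x 0 = 3 * x 0 := by simp [T0]
lemma T0_one (x : E) : T0 x 1 = 37 * x 0 - x 1 := by simp [T0]

lemma amgm (X s : ℝ) : 4 * X * s ^ 3 ≤ X ^ 4 + 3 * s ^ 4 := by
  have h : X ^ 4 + 3 * s ^ 4 - 4 * X * s ^ 3 = (X - s) ^ 2 * ((X + s) ^ 2 + 2 * s ^ 2) := by ring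
  have : 0 ≤ (X - s) ^ 2 * ((X + s) ^ 2 + 2 * s ^ 2) := by positivity
  linarith

lemma real_bound (r s : ℝ) (h : r ^ 4 + s ^ 4 = 1) :
    |3 * r ^ 4 - s ^ 4| + 37 * (r * s ^ 3) ≤ 106 / 5 := by
  have hr : 0 ≤ r ^ 4 := by positivity
  have hs : 0 ≤ s ^ 4 := by positivity
  have h1 := amgm (5 / 4 * r) s
  have h2 := amgm (11 / 8 * r) s
  rcases abs_cases (3 * r ^ 4 - s ^ 4) with h3 | h3
  · rw [h3.1]; nlinarith
  · rw [h3.1]; nlinarith

lemma radius_bound (x : E) (f : E →L[ℂ] ℂ) (hx : ‖x‖ = 1) (hf : ‖f‖ = 1) (hfx : f x = 1) :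
    ‖f (T0 x)‖ ≤ 106 / 5 := by
  have hx4 := norm_pow_four x
  rw [hx] at hx4
  rw [formula x f hx hf hfx, T0_zero, T0_one]
  have e : (Complex.normSq (x 0) : ℂ) * (3 * x 0 * (starRingEnd ℂ) (x 0)) +
      (Complex.normSq (x 1) : ℂ) * ((37 * x 0 - x 1) * (starRingEnd ℂ) (x 1)) =
      ((3 * ‖x 0‖ ^ 4 - ‖x 1‖ ^ 4 : ℝ) : ℂ) +
        37 * ((Complex.normSq (x 1) : ℂ) * (x 0 * (starRingEnd ℂ) (x 1))) := by
    have e0 : ((‖x 0‖ ^ 4 : ℝ) : ℂ) = (Complex.normSq (x 0) : ℂ) * (x 0 * (starRingEnd ℂ) (x 0)) := by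
      rw [Complex.mul_conj, Complex.normSq_eq_norm_sq]; push_cast; ring
    have e1 : ((‖x 1‖ ^ 4 : ℝ) : ℂ) = (Complex.normSq (x 1) : ℂ) * (x 1 * (starRingEnd ℂ) (x 1)) := by
      rw [Complex.mul_conj, Complex.normSq_eq_norm_sq]; push_cast; ring
    rw [Complex.ofReal_sub, Complex.ofReal_mul, e0, e1]
    push_cast
    ring
  rw [e]
  refine (norm_add_le _ _).trans ?_
  rw [Complex.norm_real, Real.norm_eq_abs]
  have e2 : ‖37 * ((Complex.normSq (x 1) : ℂ) * (x 0 * (starRingEnd ℂ) (x 1)))‖ =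
      37 * (‖x 0‖ * ‖x 1‖ ^ 3) := by
    rw [Complex.normSq_eq_norm_sq]
    simp
    ring
  rw [e2]
  exact real_bound _ _ (by linarith)

lemma T0_norm : 157358497 / 82 ≤ ‖T0‖ ^ 4 := by
  let x : E := WithLp.toLp 4 ![3, -1]
  have hx : ‖x‖ ^ 4 = 82 := by
    rw [norm_pow_four]; simp [x]; norm_num
  have hT : ‖T0 x‖ ^ 4 = 157358497 := by
    rw [norm_pow_four, T0_zero, T0_one]
    have h0 : (3 : ℂ) * x 0 = 9 := by simp [x]; norm_num
    have h1 : (37 : ℂ) * x 0 - x 1 = 112 := by simp [x]; norm_num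
    rw [h0, h1]; simp; norm_num
  have h := T0.le_opNorm x
  have h4 : ‖T0 x‖ ^ 4 ≤ (‖T0‖ * ‖x‖) ^ 4 := pow_le_pow_left₀ (norm_nonneg _) h 4
  rw [mul_pow, hx, hT] at h4
  linarith

lemma kappa_pow : (1 / ((4 : ℝ) ^ (1 / (4 : ℝ)) * (4 / (4 - 1)) ^ ((4 - 1) / (4 : ℝ)))) ^ 4
    = 27 / 256 := by
  have h1 : ((4 : ℝ) ^ (1 / (4 : ℝ))) ^ 4 = 4 := by
    rw [← Real.rpow_natCast, ← Real.rpow_mul (by norm_num)]; norm_num
  have h2 : (((4 : ℝ) / (4 - 1)) ^ ((4 - 1) / (4 : ℝ))) ^ 4 = 64 / 27 := by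
    rw [← Real.rpow_natCast, ← Real.rpow_mul (by norm_num)]; norm_num
  rw [div_pow, mul_pow, h1, h2]; norm_num

lemma index_lt :
    sInf {c : ℝ | ∃ T : E →L[ℂ] E, ‖T‖ = 1 ∧
          c = sSup {s : ℝ | ∃ (x : E) (f : E →L[ℂ] ℂ),
                ‖x‖ = 1 ∧ ‖f‖ = 1 ∧ f x = 1 ∧ s = ‖f (T x)‖}}
      < 1 / ((4 : ℝ) ^ (1 / (4 : ℝ)) * (4 / (4 - 1)) ^ ((4 - 1) / (4 : ℝ))) := by
  have hN := T0_norm
  have hpos : 0 < ‖T0‖ := by
    rcases (norm_nonneg T0).eq_or_lt with h | h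
    · rw [← h] at hN; norm_num at hN
    · exact h
  let T : E →L[ℂ] E := ((‖T0‖⁻¹ : ℝ) : ℂ) • T0
  have hT : ‖T‖ = 1 := by
    simp only [T, norm_smul, Complex.norm_real, norm_inv, norm_norm]
    exact inv_mul_cancel₀ hpos.ne'
  have hbdd : BddBelow {c : ℝ | ∃ T : E →L[ℂ] E, ‖T‖ = 1 ∧
          c = sSup {s : ℝ | ∃ (x : E) (f : E →L[ℂ] ℂ),
                ‖x‖ = 1 ∧ ‖f‖ = 1 ∧ f x = 1 ∧ s = ‖f (T x)‖}} := by
    refine ⟨0, ?_⟩
    rintro c ⟨S, -, rfl⟩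
    apply Real.sSup_nonneg
    rintro s ⟨x, f, -, -, -, rfl⟩
    exact norm_nonneg _
  refine lt_of_le_of_lt (csInf_le hbdd ⟨T, hT, rfl⟩) ?_
  have hs : sSup {s : ℝ | ∃ (x : E) (f : E →L[ℂ] ℂ),
                ‖x‖ = 1 ∧ ‖f‖ = 1 ∧ f x = 1 ∧ s = ‖f (T x)‖} ≤ 106 / 5 * ‖T0‖⁻¹ := by
    apply Real.sSup_le _ (by positivity)
    rintro s ⟨x, f, hx, hf, hfx, rfl⟩
    have := radius_bound x f hx hf hfx
    simp only [T, smul_apply, map_smul, norm_smul, Complex.norm_real, norm_inv,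
      norm_norm]
    rw [mul_comm]
    exact mul_le_mul_of_nonneg_right this (by positivity)
  refine lt_of_le_of_lt hs ?_
  apply lt_of_pow_lt_pow_left₀ 4 (by positivity)
  rw [kappa_pow, mul_pow, inv_pow, ← div_eq_mul_inv, div_lt_iff₀ (by positivity)]
  nlinarith

end Pool.Agent.P.MP_c5b4b2_an
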